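import Pool.Agent.Lib.MP_e3346b_ag.Core

/-!
# Modules with trivial endomorphism ring over an Artinian ring

Let `R` be an Artinian ring and `E` a nonzero module all of whose endomorphisms are homotheties
and which is faithful. Then `E` has no presentation `R² → R² → E → 0` whose relations have
nilpotent coordinates.
-/

namespace Pool.Agent.MP_e3346b

open Module

/-- Endomorphisms of a presented module, from the images of two generators. -/
lemma exists_hom_of_relations {R E : Type*} [CommRing R] [AddCommGroup E] [Module R E]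
    (F : (Fin 2 → R) →ₗ[R] E) (hF : Function.Surjective F)
    (G : (Fin 2 → R) →ₗ[R] (Fin 2 → R)) (hG : LinearMap.range G = LinearMap.ker F)
    (y : Fin 2 → E)
    (hy : ∀ j, (G (Pi.single j 1) 0) • y 0 + (G (Pi.single j 1) 1) • y 1 = 0) :
    ∃ φ : E →ₗ[R] E, ∀ i, φ (F (Pi.single i 1)) = y i := by
  let Y : (Fin 2 → R) →ₗ[R] E := Fintype.linearCombination R y
  have hker : LinearMap.ker F ≤ LinearMap.ker Y := by
    rw [← hG]
    rintro _ ⟨v, rfl⟩
    rw [LinearMap.mem_ker]
    have hcomp : Y.comp G = 0 := by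
      refine LinearMap.pi_ext' fun j => LinearMap.ext_ring ?_
      simp only [LinearMap.comp_apply, LinearMap.single_apply, LinearMap.zero_apply]
      have := hy j
      simpa [Y, Fintype.linearCombination_apply, Fin.sum_univ_two] using this
    exact LinearMap.congr_fun hcomp v
  let e := F.quotKerEquivOfSurjective hF
  refine ⟨((LinearMap.ker F).liftQ Y hker).comp e.symm.toLinearMap, fun i => ?_⟩
  have he : e.symm (F (Pi.single i 1)) = Submodule.Quotient.mk (Pi.single i 1) := by
    rw [LinearEquiv.symm_apply_eq]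
    rfl
  simp only [LinearMap.comp_apply, LinearEquiv.coe_coe, he]
  rw [← Submodule.mkQ_apply, Submodule.mkQ_apply, Submodule.liftQ_apply]
  simp [Y, Fintype.linearCombination_apply_single]

/-- There is no presentation by two generators and two relations. -/
theorem no_two_by_two_presentation {R E : Type*} [CommRing R] [IsArtinianRing R]
    [AddCommGroup E] [Module R E] [Nontrivial E]
    (F : (Fin 2 → R) →ₗ[R] E) (hF : Function.Surjective F)
    (G : (Fin 2 → R) →ₗ[R] (Fin 2 → R)) (hG : LinearMap.range G = LinearMap.ker F)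
    (hnil : ∀ v ∈ LinearMap.ker F, ∀ i, IsNilpotent (v i))
    (hfaith : ∀ r : R, (∀ e : E, r • e = 0) → r = 0)
    (hend : ∀ φ : E →ₗ[R] E, ∃ r : R, ∀ e, φ e = r • e) : False := by
  have hfin : Module.Finite R E := Module.Finite.of_surjective F hF
  set x0 : E := F (Pi.single 0 1) with hx0
  set x1 : E := F (Pi.single 1 1) with hx1
  have hFapp : ∀ v : Fin 2 → R, F v = v 0 • x0 + v 1 • x1 := by
    intro v
    have hv : v = v 0 • (Pi.single 0 1 : Fin 2 → R) + v 1 • (Pi.single 1 1 : Fin 2 → R) := by
      ext i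
      fin_cases i <;> simp
    conv_lhs => rw [hv]
    rw [map_add, map_smul, map_smul]
  obtain ⟨a, hadef⟩ : ∃ a, a = G (Pi.single 0 1) 0 := ⟨_, rfl⟩
  obtain ⟨c, hcdef⟩ : ∃ c, c = G (Pi.single 0 1) 1 := ⟨_, rfl⟩
  obtain ⟨b, hbdef⟩ : ∃ b, b = G (Pi.single 1 1) 0 := ⟨_, rfl⟩
  obtain ⟨d, hddef⟩ : ∃ d, d = G (Pi.single 1 1) 1 := ⟨_, rfl⟩
  have hGmem : ∀ v, G v ∈ LinearMap.ker F := fun v => by
    rw [← hG]
    exact ⟨v, rfl⟩
  have ha : IsNilpotent a := hadef ▸ hnil _ (hGmem _) 0
  have hc : IsNilpotent c := hcdef ▸ hnil _ (hGmem _) 1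
  have hb : IsNilpotent b := hbdef ▸ hnil _ (hGmem _) 0
  have hd : IsNilpotent d := hddef ▸ hnil _ (hGmem _) 1
  have rel0 : a • x0 + c • x1 = 0 := by
    have := LinearMap.mem_ker.mp (hGmem (Pi.single 0 1))
    rw [hFapp] at this
    rw [hadef, hcdef]
    exact this
  have rel1 : b • x0 + d • x1 = 0 := by
    have := LinearMap.mem_ker.mp (hGmem (Pi.single 1 1))
    rw [hFapp] at this
    rw [hbdef, hddef]
    exact this
  have hGapp : ∀ v : Fin 2 → R, G v 0 = a * v 0 + b * v 1 ∧ G v 1 = c * v 0 + d * v 1 := by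
    intro v
    have hv : v = v 0 • (Pi.single 0 1 : Fin 2 → R) + v 1 • (Pi.single 1 1 : Fin 2 → R) := by
      ext i
      fin_cases i <;> simp
    have hGv : G v = v 0 • G (Pi.single 0 1) + v 1 • G (Pi.single 1 1) := by
      conv_lhs => rw [hv]
      rw [map_add, map_smul, map_smul]
    constructor
    · rw [hGv, hadef, hbdef]
      simp only [Pi.add_apply, Pi.smul_apply, smul_eq_mul]
      ring
    · rw [hGv, hcdef, hddef]
      simp only [Pi.add_apply, Pi.smul_apply, smul_eq_mul]
      ring
  have hgen : ∀ r : R, r • x0 = 0 → r • x1 = 0 → r = 0 := by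
    intro r h0 h1
    apply hfaith
    intro e
    obtain ⟨v, rfl⟩ := hF e
    rw [hFapp, smul_add, smul_comm r, smul_comm r, h0, h1]
    simp
  have hdet0 : a * d - b * c = 0 := by
    apply hgen
    · have h1 : a • x0 = -(c • x1) := eq_neg_of_add_eq_zero_left rel0
      have h2 : b • x0 = -(d • x1) := eq_neg_of_add_eq_zero_left rel1
      rw [sub_smul, mul_comm a d, mul_comm b c, mul_smul, mul_smul, h1, h2]
      simp only [smul_neg]
      rw [smul_comm d c]
      simp
    · have h1 : c • x1 = -(a • x0) := eq_neg_of_add_eq_zero_right rel0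
      have h2 : d • x1 = -(b • x0) := eq_neg_of_add_eq_zero_right rel1
      rw [sub_smul, mul_smul, mul_smul, h1, h2]
      simp only [smul_neg]
      rw [smul_comm a b]
      simp
  have hdet : ∀ n : E, (a * d) • n = (b * c) • n := fun n => by
    rw [sub_eq_zero.mp hdet0]
  -- the map from the kernel of `G` onto `K4`
  have hkey : Module.length R (K4 E a b c d) ≤ Module.length R (LinearMap.ker G) := by
    let Ψ : LinearMap.ker G →ₗ[R] K4 E a b c d :=
      { toFun := fun r => ⟨((r : Fin 2 → R) 1 • x1, -((r : Fin 2 → R) 0 • x1),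
            -((r : Fin 2 → R) 1 • x0), (r : Fin 2 → R) 0 • x0), by
          have h := LinearMap.mem_ker.mp r.2
          have h0 : a * (r : Fin 2 → R) 0 + b * (r : Fin 2 → R) 1 = 0 := by
            rw [← (hGapp _).1, h]; rfl
          have h1 : c * (r : Fin 2 → R) 0 + d * (r : Fin 2 → R) 1 = 0 := by
            rw [← (hGapp _).2, h]; rfl
          obtain ⟨r0, hr0⟩ : ∃ r0, r0 = (r : Fin 2 → R) 0 := ⟨_, rfl⟩
          obtain ⟨r1, hr1⟩ : ∃ r1, r1 = (r : Fin 2 → R) 1 := ⟨_, rfl⟩
          rw [← hr0, ← hr1] at h0 h1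
          simp only [← hr0, ← hr1]
          have e1 : ∀ x : E, (a * r0) • x = -((b * r1) • x) := fun x => by
            rw [← neg_smul, ← eq_neg_of_add_eq_zero_left h0]
          have e2 : ∀ x : E, (c * r0) • x = -((d * r1) • x) := fun x => by
            rw [← neg_smul, ← eq_neg_of_add_eq_zero_left h1]
          have f1 : ∀ s : R, (a * s) • x0 = -((c * s) • x1) := fun s => by
            rw [mul_comm a, mul_comm c, mul_smul, mul_smul,
              eq_neg_of_add_eq_zero_left rel0, smul_neg]
          have f2 : ∀ s : R, (b * s) • x0 = -((d * s) • x1) := fun s => by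
            rw [mul_comm b, mul_comm d, mul_smul, mul_smul,
              eq_neg_of_add_eq_zero_left rel1, smul_neg]
          refine ⟨?_, ?_, ?_, ?_, ?_, ?_, ?_⟩ <;>
            simp only [smul_neg, smul_smul]
          · rw [e1, neg_neg]
          · rw [f1, neg_neg]
          · rw [e1, f2, neg_neg]
          · rw [f2, e2, neg_neg]
          · rw [f2]
          · rw [e2]
          · rw [e1]⟩
        map_add' := fun x y => by
          ext <;> simp [add_smul] <;> abel
        map_smul' := fun r x => by
          ext <;> simp [mul_smul] }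
    refine Module.length_le_of_surjective Ψ ?_
    rintro ⟨⟨α, β, γ, δ⟩, h1, h2, h3, h4, h5, h6, h7⟩
    simp only at h1 h2 h3 h4 h5 h6 h7
    obtain ⟨φ0, hφ0⟩ := exists_hom_of_relations F hF G hG ![δ, -β] (by
      intro j
      fin_cases j
      · simp [← hadef, ← hcdef, h7, h4]
      · simp [← hbdef, ← hddef, h5])
    obtain ⟨φ1, hφ1⟩ := exists_hom_of_relations F hF G hG ![-γ, α] (by
      intro j
      fin_cases j
      · simp [← hadef, ← hcdef, h2]
      · simp [← hbdef, ← hddef, ← h3, h7])
    obtain ⟨r0, hr0⟩ := hend φ0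
    obtain ⟨r1, hr1⟩ := hend φ1
    have a0 : r0 • x0 = δ := by rw [← hr0, hx0, hφ0 0]; rfl
    have a1 : r0 • x1 = -β := by rw [← hr0, hx1, hφ0 1]; rfl
    have b0 : r1 • x0 = -γ := by rw [← hr1, hx0, hφ1 0]; rfl
    have b1 : r1 • x1 = α := by rw [← hr1, hx1, hφ1 1]; rfl
    refine ⟨⟨![r0, r1], ?_⟩, ?_⟩
    · rw [LinearMap.mem_ker]
      ext i
      fin_cases i
      · simp only [Fin.zero_eta, Fin.isValue, (hGapp _).1, Matrix.cons_val_zero,
          Matrix.cons_val_one, Pi.zero_apply]
        apply hgen
        · rw [add_smul, mul_smul, mul_smul, a0, b0, smul_neg, h7]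
          simp
        · rw [add_smul, mul_smul, mul_smul, a1, b1, smul_neg, h1]
          simp
      · simp only [Fin.mk_one, Fin.isValue, (hGapp _).2, Matrix.cons_val_zero,
          Matrix.cons_val_one, Pi.zero_apply]
        apply hgen
        · rw [add_smul, mul_smul, mul_smul, a0, b0, smul_neg, h6]
          simp
        · rw [add_smul, mul_smul, mul_smul, a1, b1, smul_neg, ← h4, ← h7, h3]
          simp
    · apply Subtype.ext
      simp [Ψ, a0, a1, b0, b1]
  have hcore := length_lt_length_K4 (N := E) a b c d ha hb hc hd hdet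
  have hker : Module.length R (LinearMap.ker G) = Module.length R E := by
    have h1 := length_ker_add_range (R := R) G
    have h2 := length_ker_add_range (R := R) F
    have h3 : Module.length R (LinearMap.range F) = Module.length R E := by
      rw [LinearMap.range_eq_top.mpr hF, Module.length_top]
    rw [h3, ← hG] at h2
    rw [h2, add_comm] at h1
    have fin : Module.length R (LinearMap.range G) ≠ ⊤ := Module.length_ne_top
    exact (ENat.add_left_injective_of_ne_top fin (by simpa [add_comm] using h1)).symm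
  exact absurd (hcore.trans_le (hkey.trans hker.le)) (lt_irrefl _)

end Pool.Agent.MP_e3346b
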