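import Mathlib

/-!
# A length inequality for pairs of annihilating two by two matrices

Let `N` be a nonzero module of finite length and let `a, b, c, d` be nilpotent elements such that
`ad - bc` kills `N`. Then the module of all `Y ∈ M₂(N)` with `A Y = 0 = Y A`,
`A = (a b; c d)`, has length greater than the length of `N`.
-/

namespace Pool.Agent.MP_e3346b

open Module

variable {R : Type*} [CommRing R]

/-- Iterating a nilpotent element from a point outside a submodule. -/
lemma exists_pow_smul_notMem {M : Type*} [AddCommGroup M] [Module R M] (p : Submodule R M)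
    {x : R} (hx : IsNilpotent x) {z : M} (hz : z ∉ p) :
    ∃ k : ℕ, x ^ k • z ∉ p ∧ x • (x ^ k • z) ∈ p := by
  classical
  obtain ⟨n, hn⟩ := hx
  have hex : ∃ k : ℕ, x ^ k • z ∈ p := ⟨n, by simp [hn]⟩
  obtain ⟨k, hk⟩ : ∃ k, Nat.find hex = k + 1 := by
    refine Nat.exists_eq_succ_of_ne_zero ?_
    intro h0
    have := Nat.find_spec hex
    rw [h0] at this
    simp at this
    exact hz this
  refine ⟨k, Nat.find_min hex (by omega), ?_⟩
  have := Nat.find_spec hex
  rw [hk] at this
  rwa [smul_smul, ← pow_succ']

lemma length_ne_top' (M : Type*) [AddCommGroup M] [Module R M] [IsArtinian R M]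
    [IsNoetherian R M] : Module.length R M ≠ ⊤ := Module.length_ne_top

/-- A submodule that is at least as long as a bigger one is equal to it. -/
lemma eq_of_le_of_length_le {M : Type*} [AddCommGroup M] [Module R M] [IsArtinian R M]
    [IsNoetherian R M] {p q : Submodule R M} (h : p ≤ q)
    (hl : Module.length R q ≤ Module.length R p) : p = q := by
  by_contra hne
  have hlt : p < q := lt_of_le_of_ne h hne
  have := Submodule.height_strictMono (R := R) (M := M) hlt
  rw [← Module.length_submodule, ← Module.length_submodule] at this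
  exact absurd hl (not_le.mpr this)

/-- Additivity of length along the kernel and the range. -/
lemma length_ker_add_range {M M' : Type*} [AddCommGroup M] [Module R M] [AddCommGroup M']
    [Module R M'] (f : M →ₗ[R] M') :
    Module.length R M = Module.length R (LinearMap.ker f) + Module.length R (LinearMap.range f) := by
  refine Module.length_eq_add_of_exact (LinearMap.ker f).subtype f.rangeRestrict
    (Submodule.injective_subtype _) f.surjective_rangeRestrict ?_
  intro x
  constructor
  · intro hx
    refine ⟨⟨x, ?_⟩, rfl⟩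
    have := congrArg Subtype.val hx
    simpa using this
  · rintro ⟨y, rfl⟩
    ext
    simp

variable (N : Type*) [AddCommGroup N] [Module R N] (a b c d : R)

/-- The module of the `(α, β, γ, δ)` such that the matrix `(δ, -β; -γ, α)` annihilates
`(a, b; c, d)` on both sides. -/
def K4 : Submodule R (N × N × N × N) where
  carrier := {z | a • z.2.1 = b • z.1 ∧ a • z.2.2.1 = c • z.1 ∧ a • z.2.2.2 = d • z.1 ∧
    b • z.2.2.1 = c • z.2.1 ∧ b • z.2.2.2 = d • z.2.1 ∧ c • z.2.2.2 = d • z.2.2.1 ∧
    a • z.2.2.2 = b • z.2.2.1}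
  zero_mem' := by simp
  add_mem' := by
    rintro x y ⟨h1, h2, h3, h4, h5, h6, h7⟩ ⟨g1, g2, g3, g4, g5, g6, g7⟩
    refine ⟨?_, ?_, ?_, ?_, ?_, ?_, ?_⟩ <;> simp only [Prod.fst_add, Prod.snd_add, smul_add]
    · rw [h1, g1]
    · rw [h2, g2]
    · rw [h3, g3]
    · rw [h4, g4]
    · rw [h5, g5]
    · rw [h6, g6]
    · rw [h7, g7]
  smul_mem' := by
    rintro r x ⟨h1, h2, h3, h4, h5, h6, h7⟩
    refine ⟨?_, ?_, ?_, ?_, ?_, ?_, ?_⟩ <;> simp only [Prod.smul_fst, Prod.smul_snd]
    · rw [smul_comm a r, h1, smul_comm r b]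
    · rw [smul_comm a r, h2, smul_comm r c]
    · rw [smul_comm a r, h3, smul_comm r d]
    · rw [smul_comm b r, h4, smul_comm r c]
    · rw [smul_comm b r, h5, smul_comm r d]
    · rw [smul_comm c r, h6, smul_comm r d]
    · rw [smul_comm a r, h7, smul_comm r b]

/-- Cocycles for three elements. -/
def Z3 : Submodule R (N × N × N) where
  carrier := {z | a • z.2.1 = b • z.1 ∧ a • z.2.2 = c • z.1 ∧ b • z.2.2 = c • z.2.1}
  zero_mem' := by simp
  add_mem' := by
    rintro x y ⟨h1, h2, h3⟩ ⟨g1, g2, g3⟩
    refine ⟨?_, ?_, ?_⟩ <;> simp only [Prod.fst_add, Prod.snd_add, smul_add]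
    · rw [h1, g1]
    · rw [h2, g2]
    · rw [h3, g3]
  smul_mem' := by
    rintro r x ⟨h1, h2, h3⟩
    refine ⟨?_, ?_, ?_⟩ <;> simp only [Prod.smul_fst, Prod.smul_snd]
    · rw [smul_comm a r, h1, smul_comm r b]
    · rw [smul_comm a r, h2, smul_comm r c]
    · rw [smul_comm b r, h3, smul_comm r c]

/-- The map `n ↦ (an, bn, cn)`. -/
def eta3 : N →ₗ[R] N × N × N where
  toFun n := (a • n, b • n, c • n)
  map_add' x y := by simp
  map_smul' r x := by simp [smul_comm r]

/-- The map `n ↦ (an, bn)`. -/
def eta2 : N →ₗ[R] N × N where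
  toFun n := (a • n, b • n)
  map_add' x y := by simp
  map_smul' r x := by simp [smul_comm r]

/-- The map `(α, β) ↦ aβ - bα`. -/
def kap : N × N →ₗ[R] N where
  toFun z := a • z.2 - b • z.1
  map_add' x y := by simp; abel
  map_smul' r x := by simp [smul_comm r, smul_sub]

/-- The map `(α, β, γ) ↦ dα - bγ`. -/
def rho : N × N × N →ₗ[R] N where
  toFun z := d • z.1 - b • z.2.2
  map_add' x y := by simp; abel
  map_smul' r x := by simp [smul_comm r, smul_sub]

/-- The projection `(α, β, γ, δ) ↦ (α, β, γ)`. -/
def pr3 : N × N × N × N →ₗ[R] N × N × N where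
  toFun z := (z.1, z.2.1, z.2.2.1)
  map_add' x y := by simp
  map_smul' r x := by simp

/-- The projection `(α, β, γ) ↦ (α, β)`. -/
def pr2 : N × N × N →ₗ[R] N × N where
  toFun z := (z.1, z.2.1)
  map_add' x y := by simp
  map_smul' r x := by simp

variable {N}

/-- The core inequality. -/
theorem length_lt_length_K4 [IsArtinian R N] [IsNoetherian R N] [Nontrivial N]
    (ha : IsNilpotent a) (hb : IsNilpotent b) (hc : IsNilpotent c) (hd : IsNilpotent d)
    (hdet : ∀ n : N, (a * d) • n = (b * c) • n) :
    Module.length R N < Module.length R (K4 N a b c d) := by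
  by_contra hcon
  rw [not_lt] at hcon
  -- the two maps whose ranges are compared
  let π : K4 N a b c d →ₗ[R] N × N × N := (pr3 N).comp (K4 N a b c d).subtype
  have hBT : LinearMap.range (eta3 N a b c) ≤ LinearMap.range π := by
    rintro _ ⟨n, rfl⟩
    refine ⟨⟨(a • n, b • n, c • n, d • n), ?_⟩, rfl⟩
    refine ⟨smul_comm _ _ _, smul_comm _ _ _, smul_comm _ _ _, smul_comm _ _ _,
      smul_comm _ _ _, smul_comm _ _ _, ?_⟩
    simp only [smul_smul]
    exact hdet n
  have hker1 : Module.length R (LinearMap.ker (eta3 N a b c)) ≤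
      Module.length R (LinearMap.ker π) := by
    let j : LinearMap.ker (eta3 N a b c) →ₗ[R] LinearMap.ker π :=
      { toFun := fun n => ⟨⟨(0, 0, 0, (n : N)), by
          have h := n.2
          simp only [LinearMap.mem_ker, eta3, LinearMap.coe_mk, AddHom.coe_mk,
            Prod.mk_eq_zero] at h
          obtain ⟨h1, h2, h3⟩ := h
          refine ⟨?_, ?_, ?_, ?_, ?_, ?_, ?_⟩ <;> simp [h1, h2, h3]⟩, by
          simp [LinearMap.mem_ker, π, pr3]⟩
        map_add' := fun x y => by ext <;> simp
        map_smul' := fun r x => by ext <;> simp }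
    refine Module.length_le_of_injective j ?_
    intro x y hxy
    have := congrArg (fun z => ((z : LinearMap.ker π) : K4 N a b c d).1.2.2.2) hxy
    simpa [j] using this
  have hK := length_ker_add_range (R := R) π
  have hN3 := length_ker_add_range (R := R) (eta3 N a b c)
  have fin3 : Module.length R (LinearMap.ker (eta3 N a b c)) ≠ ⊤ := Module.length_ne_top
  have hTB : LinearMap.range (eta3 N a b c) = LinearMap.range π := by
    refine eq_of_le_of_length_le hBT ?_
    have h1 : Module.length R (LinearMap.ker (eta3 N a b c)) +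
        Module.length R (LinearMap.range π) ≤ Module.length R (LinearMap.ker (eta3 N a b c)) +
        Module.length R (LinearMap.range (eta3 N a b c)) := by
      rw [← hN3]
      refine le_trans ?_ hcon
      rw [hK]
      exact add_le_add_left hker1 _
    exact (ENat.add_le_add_iff_left fin3).mp h1
  -- the kernel of `ρ` on the cocycles
  let ρ : Z3 N a b c →ₗ[R] N := (rho N b d).comp (Z3 N a b c).subtype
  have hkerρ : ∀ z ∈ Z3 N a b c, rho N b d z = 0 → z ∈ LinearMap.range (eta3 N a b c) := by
    intro z hz hz0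
    by_contra hzn
    obtain ⟨k, hk1, hk2⟩ := exists_pow_smul_notMem (LinearMap.range (eta3 N a b c)) hd hzn
    obtain ⟨n, hn⟩ := hk2
    apply hk1
    rw [hTB]
    set w := d ^ k • z with hw
    have hwZ : w ∈ Z3 N a b c := (Z3 N a b c).smul_mem _ hz
    have hw0 : rho N b d w = 0 := by rw [hw, map_smul, hz0, smul_zero]
    obtain ⟨w1, w2, w3⟩ := w
    obtain ⟨e1, e2, e3⟩ := hwZ
    simp only [eta3, LinearMap.coe_mk, AddHom.coe_mk, Prod.smul_mk, Prod.mk.injEq] at hn
    obtain ⟨n1, n2, n3⟩ := hn
    simp only [rho, LinearMap.coe_mk, AddHom.coe_mk, sub_eq_zero] at hw0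
    refine ⟨⟨(w1, w2, w3, n), ?_⟩, rfl⟩
    exact ⟨e1, e2, n1, e3, n2, n3, n1.trans hw0⟩
  have hrangeρ : LinearMap.range ρ ≤ LinearMap.ker (eta3 N a b c) := by
    rintro _ ⟨⟨⟨α, β, γ⟩, h1, h2, h3⟩, rfl⟩
    simp only at h1 h2 h3
    have k1 : (a * d) • α = (b * c) • α := hdet α
    have k2 : (a * d) • β = (b * c) • β := hdet β
    have k3 : (a * d) • γ = (b * c) • γ := hdet γ
    simp only [mul_smul] at k1 k2 k3
    simp only [LinearMap.mem_ker, eta3, LinearMap.coe_mk, AddHom.coe_mk, Prod.mk_eq_zero, ρ, rho,
      LinearMap.comp_apply, Submodule.subtype_apply, smul_sub, sub_eq_zero]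
    refine ⟨?_, ?_, ?_⟩
    · rw [k1, smul_comm a b, h2]
    · rw [smul_comm b d, ← h1, smul_comm d a, k2, h3]
    · rw [smul_comm c d, ← h2, smul_comm d a, k3, smul_comm b c]
  have hZ3 : Module.length R (Z3 N a b c) ≤ Module.length R N := by
    rw [length_ker_add_range (R := R) ρ, hN3, add_comm]
    refine add_le_add ?_ ?_
    · exact Module.length_le_of_injective (Submodule.inclusion hrangeρ)
        (Submodule.inclusion_injective _)
    · let j : LinearMap.ker ρ →ₗ[R] LinearMap.range (eta3 N a b c) :=
        { toFun := fun z => ⟨z.1.1, hkerρ _ z.1.2 z.2⟩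
          map_add' := fun x y => by ext <;> simp
          map_smul' := fun r x => by ext <;> simp }
      refine Module.length_le_of_injective j ?_
      intro x y hxy
      have := congrArg Subtype.val hxy
      exact Subtype.ext (Subtype.ext this)
  -- second projection
  let π₂ : Z3 N a b c →ₗ[R] N × N := (pr2 N).comp (Z3 N a b c).subtype
  have hBT2 : LinearMap.range (eta2 N a b) ≤ LinearMap.range π₂ := by
    rintro _ ⟨n, rfl⟩
    exact ⟨⟨(a • n, b • n, c • n), smul_comm _ _ _, smul_comm _ _ _, smul_comm _ _ _⟩, rfl⟩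
  have hker2 : Module.length R (LinearMap.ker (eta2 N a b)) ≤
      Module.length R (LinearMap.ker π₂) := by
    let j : LinearMap.ker (eta2 N a b) →ₗ[R] LinearMap.ker π₂ :=
      { toFun := fun n => ⟨⟨(0, 0, (n : N)), by
          have h := n.2
          simp only [LinearMap.mem_ker, eta2, LinearMap.coe_mk, AddHom.coe_mk,
            Prod.mk_eq_zero] at h
          obtain ⟨h1, h2⟩ := h
          refine ⟨?_, ?_, ?_⟩ <;> simp [h1, h2]⟩, by
          simp [LinearMap.mem_ker, π₂, pr2]⟩
        map_add' := fun x y => by ext <;> simp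
        map_smul' := fun r x => by ext <;> simp }
    refine Module.length_le_of_injective j ?_
    intro x y hxy
    have := congrArg (fun z => ((z : LinearMap.ker π₂) : Z3 N a b c).1.2.2) hxy
    simpa [j] using this
  have hN2 := length_ker_add_range (R := R) (eta2 N a b)
  have fin2 : Module.length R (LinearMap.ker (eta2 N a b)) ≠ ⊤ := Module.length_ne_top
  have hTB2 : LinearMap.range (eta2 N a b) = LinearMap.range π₂ := by
    refine eq_of_le_of_length_le hBT2 ?_
    have h1 : Module.length R (LinearMap.ker (eta2 N a b)) +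
        Module.length R (LinearMap.range π₂) ≤ Module.length R (LinearMap.ker (eta2 N a b)) +
        Module.length R (LinearMap.range (eta2 N a b)) := by
      rw [← hN2]
      refine le_trans ?_ hZ3
      rw [length_ker_add_range (R := R) π₂]
      exact add_le_add_left hker2 _
    exact (ENat.add_le_add_iff_left fin2).mp h1
  have hZ2 : LinearMap.ker (kap N a b) ≤ LinearMap.range (eta2 N a b) := by
    intro z hz
    by_contra hzn
    obtain ⟨k, hk1, hk2⟩ := exists_pow_smul_notMem (LinearMap.range (eta2 N a b)) hc hzn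
    obtain ⟨n, hn⟩ := hk2
    apply hk1
    rw [hTB2]
    set w := c ^ k • z with hw
    have hw0 : kap N a b w = 0 := by rw [hw, map_smul, LinearMap.mem_ker.mp hz, smul_zero]
    obtain ⟨w1, w2⟩ := w
    simp only [eta2, LinearMap.coe_mk, AddHom.coe_mk, Prod.smul_mk, Prod.mk.injEq] at hn
    obtain ⟨n1, n2⟩ := hn
    simp only [kap, LinearMap.coe_mk, AddHom.coe_mk, sub_eq_zero] at hw0
    exact ⟨⟨(w1, w2, n), hw0, n1, n2⟩, rfl⟩
  -- final count
  have hNN : Module.length R (N × N) = Module.length R N + Module.length R N :=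
    Module.length_prod R N N
  have hkap := length_ker_add_range (R := R) (kap N a b)
  have hle1 : Module.length R (LinearMap.ker (kap N a b)) ≤
      Module.length R (LinearMap.range (eta2 N a b)) :=
    Module.length_le_of_injective (Submodule.inclusion hZ2) (Submodule.inclusion_injective _)
  have hle2 : Module.length R (LinearMap.range (kap N a b)) ≤ Module.length R N :=
    Module.length_le_of_injective (Submodule.subtype _) (Submodule.injective_subtype _)
  have finN : Module.length R N ≠ ⊤ := Module.length_ne_top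
  have hH2 : Module.length R (LinearMap.ker (eta2 N a b)) = 0 := by
    have h1 : Module.length R N + Module.length R N ≤
        Module.length R (LinearMap.range (eta2 N a b)) + Module.length R N := by
      rw [← hNN, hkap]
      exact add_le_add hle1 hle2
    have h2 : Module.length R N ≤ Module.length R (LinearMap.range (eta2 N a b)) :=
      (ENat.add_le_add_iff_right finN).mp h1
    have fin4 : Module.length R (LinearMap.range (eta2 N a b)) ≠ ⊤ := Module.length_ne_top
    have h3 : Module.length R (LinearMap.ker (eta2 N a b)) +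
        Module.length R (LinearMap.range (eta2 N a b)) ≤
        0 + Module.length R (LinearMap.range (eta2 N a b)) := by
      rw [← hN2, zero_add]; exact h2
    exact le_antisymm ((ENat.add_le_add_iff_right fin4).mp h3) (zero_le)
  rw [Module.length_eq_zero_iff] at hH2
  obtain ⟨n, hn⟩ := exists_ne (0 : N)
  obtain ⟨k, hk1, hk2⟩ := exists_pow_smul_notMem (⊥ : Submodule R N) ha
    (z := n) (by simpa using hn)
  obtain ⟨l, hl1, hl2⟩ := exists_pow_smul_notMem (⊥ : Submodule R N) hb hk1
  rw [Submodule.mem_bot] at hk2 hl2 hl1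
  apply hl1
  have hmem : b ^ l • a ^ k • n ∈ LinearMap.ker (eta2 N a b) := by
    simp only [LinearMap.mem_ker, eta2, LinearMap.coe_mk, AddHom.coe_mk, Prod.mk_eq_zero]
    refine ⟨?_, hl2⟩
    rw [smul_comm a (b ^ l), hk2, smul_zero]
  have := Subsingleton.elim (⟨_, hmem⟩ : LinearMap.ker (eta2 N a b)) 0
  simpa using congrArg Subtype.val this

end Pool.Agent.MP_e3346b
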