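import Pool.Agent.Lib.MP_e3346b_ag.Core

/-!
# Modules `E` with `length Hom(X, E) = length X`

Consequences: such an `E` is faithful and all its endomorphisms are homotheties.
-/

universe u

namespace Pool.Agent.MP_e3346b

variable {R : Type u} [CommRing R] (I : Ideal R)

/-- Finite modules killed by an ideal of finite colength have finite length. -/
lemma finite_length_of_killed (hA : IsArtinian R (R ⧸ I)) (hN : IsNoetherian R (R ⧸ I))
    (X : Type u) [AddCommGroup X] [Module R X] [Module.Finite R X]
    (hX : ∀ r ∈ I, ∀ x : X, r • x = 0) : IsArtinian R X ∧ IsNoetherian R X := by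
  obtain ⟨n, f, hf⟩ := Module.Finite.exists_fin' R X
  let comp : ∀ i : Fin n, (R ⧸ I) →ₗ[R] X := fun i =>
    Submodule.liftQ I (LinearMap.toSpanSingleton R X (f (Pi.single i 1))) (by
      intro r hr
      rw [LinearMap.mem_ker, LinearMap.toSpanSingleton_apply]
      exact hX r hr _)
  let F : (Fin n → R ⧸ I) →ₗ[R] X := ∑ i, (comp i).comp (LinearMap.proj i)
  have hF : Function.Surjective F := by
    intro x
    obtain ⟨v, rfl⟩ := hf x
    refine ⟨fun i => Submodule.Quotient.mk (v i), ?_⟩
    have hv : v = ∑ i, v i • (Pi.single i 1 : Fin n → R) := by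
      ext j
      simp [Finset.sum_apply, Pi.single_apply]
    conv_rhs => rw [hv]
    rw [map_sum]
    simp only [F, LinearMap.sum_apply, map_smul, LinearMap.comp_apply, LinearMap.proj_apply]
    refine Finset.sum_congr rfl fun i _ => ?_
    simp only [comp, Submodule.liftQ_apply, LinearMap.toSpanSingleton_apply]
  exact ⟨isArtinian_of_surjective _ F hF,
    isNoetherian_of_surjective F (LinearMap.range_eq_top.mpr hF)⟩

/-- Homomorphisms out of a cyclic module whose annihilator kills the target. -/
lemma length_hom_cyclic (E : Type u) [AddCommGroup E] [Module R E] (J : Ideal R)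
    (hJ : ∀ r ∈ J, ∀ x : E, r • x = 0) :
    Module.length R ((R ⧸ J) →ₗ[R] E) = Module.length R E := by
  let ev : ((R ⧸ J) →ₗ[R] E) →ₗ[R] E := LinearMap.applyₗ (Submodule.Quotient.mk (1 : R))
  have hinj : Function.Injective ev := by
    intro φ ψ h
    refine LinearMap.ext fun x => ?_
    obtain ⟨r, rfl⟩ := Submodule.mkQ_surjective _ x
    have h' : φ (Submodule.Quotient.mk (1 : R)) = ψ (Submodule.Quotient.mk (1 : R)) := h
    have hr : (Submodule.mkQ J) r = r • (Submodule.Quotient.mk (1 : R) : R ⧸ J) := by
      rw [← Submodule.Quotient.mk_smul, smul_eq_mul, mul_one]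
      rfl
    rw [hr, map_smul, map_smul, h']
  have hsurj : Function.Surjective ev := by
    intro e
    have hker : J ≤ LinearMap.ker (LinearMap.toSpanSingleton R E e) := by
      intro r hr
      rw [LinearMap.mem_ker, LinearMap.toSpanSingleton_apply]
      exact hJ r hr _
    refine ⟨Submodule.liftQ J (LinearMap.toSpanSingleton R E e) hker, ?_⟩
    exact (Submodule.liftQ_apply J (LinearMap.toSpanSingleton R E e) (h := hker) (1 : R)).trans
      (one_smul R e)
  exact (LinearEquiv.ofBijective ev ⟨hinj, hsurj⟩).length_eq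

section

variable (hA : IsArtinian R (R ⧸ I)) (hN : IsNoetherian R (R ⧸ I))
  (E : Type u) [AddCommGroup E] [Module R E] [Module.Finite R E]
  (hE : ∀ r ∈ I, ∀ x : E, r • x = 0)
  (hlen : ∀ (X : Type u) [AddCommGroup X] [Module R X], Module.Finite R X →
    (∀ r ∈ I, ∀ x : X, r • x = 0) →
    Module.length R (X →ₗ[R] E) = Module.length R X)

include hE hlen in
omit [Module.Finite R E] in
lemma length_eq_of_duality : Module.length R E = Module.length R (R ⧸ I) := by
  rw [← length_hom_cyclic E I hE]
  refine hlen (R ⧸ I) inferInstance ?_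
  intro r hr x
  obtain ⟨s, rfl⟩ := Submodule.mkQ_surjective _ x
  rw [Submodule.mkQ_apply, ← Submodule.Quotient.mk_smul, Submodule.Quotient.mk_eq_zero]
  exact I.mul_mem_right _ hr

include hA hN hE hlen

omit [Module.Finite R E] in
lemma mem_of_kills (r : R) (hr : ∀ x : E, r • x = 0) : r ∈ I := by
  have h1 := length_eq_of_duality I E hE hlen
  set J : Ideal R := I ⊔ Ideal.span {r} with hJ
  have hJE : ∀ s ∈ J, ∀ x : E, s • x = 0 := by
    intro s hs x
    obtain ⟨a, ha, b, hb, rfl⟩ := Submodule.mem_sup.mp hs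
    obtain ⟨c, rfl⟩ := Ideal.mem_span_singleton'.mp hb
    rw [add_smul, hE a ha, mul_smul, hr, smul_zero, add_zero]
  have h2 : Module.length R E = Module.length R (R ⧸ J) := by
    rw [← length_hom_cyclic E J hJE]
    refine hlen (R ⧸ J) inferInstance ?_
    intro s hs x
    obtain ⟨t, rfl⟩ := Submodule.mkQ_surjective _ x
    rw [Submodule.mkQ_apply, ← Submodule.Quotient.mk_smul, Submodule.Quotient.mk_eq_zero]
    exact J.mul_mem_right _ (le_sup_left (a := I) hs)
  have hle : I ≤ J := le_sup_left
  let q : (R ⧸ I) →ₗ[R] (R ⧸ J) := Submodule.factor hle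
  have hq : Function.Surjective q := Submodule.factor_surjective hle
  have h3 := length_ker_add_range (R := R) q
  have h4 : Module.length R (LinearMap.range q) = Module.length R (R ⧸ J) := by
    rw [LinearMap.range_eq_top.mpr hq, Module.length_top]
  rw [h4, ← h2, ← h1] at h3
  have hfin : Module.length R E ≠ ⊤ := by rw [h1]; exact Module.length_ne_top
  have h5 : Module.length R (LinearMap.ker q) = 0 := by
    refine ENat.add_left_injective_of_ne_top hfin ?_
    simpa using h3.symm
  rw [Module.length_eq_zero_iff] at h5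
  have hmem : (Submodule.mkQ I) r ∈ LinearMap.ker q := by
    rw [LinearMap.mem_ker]
    change (Submodule.Quotient.mk r : R ⧸ J) = 0
    rw [Submodule.Quotient.mk_eq_zero]
    exact le_sup_right (a := I) (Ideal.mem_span_singleton_self r)
  have h6 : (Submodule.mkQ I) r = 0 :=
    congrArg Subtype.val (Subsingleton.elim (⟨_, hmem⟩ : LinearMap.ker q) 0)
  rwa [Submodule.mkQ_apply, Submodule.Quotient.mk_eq_zero] at h6

lemma exists_homothety (φ : E →ₗ[R] E) : ∃ r : R, ∀ e, φ e = r • e := by
  have h1 := length_eq_of_duality I E hE hlen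
  have h2 : Module.length R (E →ₗ[R] E) = Module.length R E := hlen E inferInstance hE
  let Λ0 : R →ₗ[R] (E →ₗ[R] E) := LinearMap.lsmul R E
  have hker : I ≤ LinearMap.ker Λ0 := by
    intro r hr
    rw [LinearMap.mem_ker]
    ext e
    exact hE r hr e
  let Λ : (R ⧸ I) →ₗ[R] (E →ₗ[R] E) := Submodule.liftQ I Λ0 hker
  have hinj : Function.Injective Λ := by
    rw [← LinearMap.ker_eq_bot, Submodule.eq_bot_iff]
    intro x hx
    obtain ⟨r, rfl⟩ := Submodule.mkQ_surjective _ x
    rw [Submodule.mkQ_apply, Submodule.Quotient.mk_eq_zero]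
    refine mem_of_kills I hA hN E hE hlen r fun e => ?_
    rw [LinearMap.mem_ker] at hx
    exact LinearMap.congr_fun hx e
  have hfin : IsFiniteLength R (E →ₗ[R] E) := by
    rw [← Module.length_ne_top_iff, h2, h1]
    exact Module.length_ne_top
  obtain ⟨hN', hA'⟩ := isFiniteLength_iff_isNoetherian_isArtinian.mp hfin
  have htop : LinearMap.range Λ = ⊤ := by
    refine eq_of_le_of_length_le le_top ?_
    rw [Module.length_top, h2, h1]
    exact (LinearEquiv.ofInjective Λ hinj).length_eq.le
  obtain ⟨x, hx⟩ := LinearMap.range_eq_top.mp htop φ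
  obtain ⟨r, rfl⟩ := Submodule.mkQ_surjective _ x
  refine ⟨r, fun e => ?_⟩
  rw [← hx]
  rfl

end

end Pool.Agent.MP_e3346b
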