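import Pool.Agent.Lib.MP_e3346b_ag.ExtLength

/-!
# Dimension shifting along a regular sequence

If `rs` is an `M`-regular sequence of length `n` annihilating `X` then `Ext^n(X, M)` has the length
of `Hom(X, M / rs M)`.
-/

universe u

open CategoryTheory CategoryTheory.Abelian RingTheory.Sequence

namespace Pool.Agent.MP_e3346b

variable {R : Type u} [CommRing R]

lemma smul_ext_eq_zero {X : ModuleCat.{u} R} (M : ModuleCat.{u} R) {r : R}
    (hr : r ∈ Module.annihilator R X) (n : ℕ) (x : Ext X M n) : r • x = 0 := by
  have h0 : r • 𝟙 X = 0 := by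
    ext y
    exact (Module.mem_annihilator.mp hr) y
  have : r • x = (Ext.mk₀ (r • 𝟙 X)).comp x (zero_add n) := by simp [Ext.mk₀_smul]
  rw [this, h0, Ext.mk₀_zero, Ext.zero_comp]

theorem subsingleton_ext_of_regular [IsNoetherianRing R] (X : Type u) [AddCommGroup X] [Module R X]
    [Module.Finite R X] (rs : List R) (M : Type u) [AddCommGroup M] [Module R M]
    [Module.Finite R M] (hreg : IsRegular M rs) (hann : ∀ r ∈ rs, r ∈ Module.annihilator R X) :
    ∀ i < rs.length, Subsingleton (Ext (ModuleCat.of R X) (ModuleCat.of R M) i) := by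
  have hle : Ideal.ofList rs ≤ Module.annihilator R X := by
    rw [Ideal.ofList, Ideal.span_le]
    exact fun r hr => hann r hr
  refine ModuleCat.subsingleton_ext_of_exists_isRegular (Ideal.ofList rs) (ModuleCat.of R X) ?_
    (ModuleCat.of R M) ?_ rs ?_ hreg
  · rw [Module.support_eq_zeroLocus]
    exact PrimeSpectrum.zeroLocus_anti_mono hle
  · exact lt_of_le_of_ne le_top hreg.top_ne_smul.symm
  · exact fun r hr => Ideal.subset_span hr

theorem length_ext_eq_length_hom [IsNoetherianRing R] (X : Type u) [AddCommGroup X] [Module R X]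
    [Module.Finite R X] (rs : List R) :
    ∀ (M : Type u) [AddCommGroup M] [Module R M] [Module.Finite R M], IsRegular M rs →
      (∀ r ∈ rs, r ∈ Module.annihilator R X) →
      Module.length R (Ext (ModuleCat.of R X) (ModuleCat.of R M) rs.length) =
        Module.length R (X →ₗ[R] (M ⧸ (Ideal.ofList rs • ⊤ : Submodule R M))) := by
  induction rs with
  | nil =>
    intro M _ _ _ _ _
    have e1 : Ext (ModuleCat.of R X) (ModuleCat.of R M) 0 ≃ₗ[R] (X →ₗ[R] M) :=
      (Ext.linearEquiv₀ (R := R)).trans (ModuleCat.homLinearEquiv (S := R))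
    have e2 : M ≃ₗ[R] (M ⧸ (Ideal.ofList ([] : List R) • ⊤ : Submodule R M)) :=
      (Submodule.quotEquivOfEqBot _ (by rw [Ideal.ofList_nil, Submodule.bot_smul])).symm
    exact (e1.trans (LinearEquiv.congrRight e2)).length_eq
  | cons r rs ih =>
    intro M _ _ _ hreg hann
    have hvan := subsingleton_ext_of_regular X (r :: rs) M hreg hann rs.length (by simp)
    rw [isRegular_cons_iff] at hreg
    obtain ⟨hr, hrs⟩ := hreg
    have hS : ((ModuleCat.of R M).smulShortComplex r).ShortExact :=
      IsSMulRegular.smulShortComplex_shortExact (M := ModuleCat.of R M) hr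
    have ih' := ih (QuotSMulTop r M) hrs (fun s hs => hann s (List.mem_cons_of_mem _ hs))
    have e2 : (QuotSMulTop r M ⧸ (Ideal.ofList rs • ⊤ : Submodule R (QuotSMulTop r M))) ≃ₗ[R]
        (M ⧸ (Ideal.ofList (r :: rs) • ⊤ : Submodule R M)) :=
      (Submodule.quotOfListConsSMulTopEquivQuotSMulTopInner M r rs).symm
    have h2 := (LinearEquiv.congrRight (R := R) (M := X) e2).length_eq
    rw [← h2, ← ih']
    symm
    let δ := hS.extClass.postcompOfLinear R (ModuleCat.of R X)
      (show rs.length + 1 = (r :: rs).length by simp)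
    have hinj : Function.Injective δ := by
      rw [← LinearMap.ker_eq_bot, Submodule.eq_bot_iff]
      intro z hz
      rw [LinearMap.mem_ker] at hz
      obtain ⟨w, hw⟩ := Ext.covariant_sequence_exact₃ (ModuleCat.of R X) hS z
        (show rs.length + 1 = (r :: rs).length by simp) hz
      rw [← hw]
      have hw0 : w = 0 := Subsingleton.elim (α := Ext (ModuleCat.of R X) (ModuleCat.of R M)
        rs.length) _ _
      rw [hw0, Ext.zero_comp]
    have hsurj : Function.Surjective δ := by
      intro z
      refine Ext.covariant_sequence_exact₁ (ModuleCat.of R X) hS z ?_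
        (show rs.length + 1 = (r :: rs).length by simp)
      have h1 : z.comp (Ext.mk₀ ((ModuleCat.of R M).smulShortComplex r).f) (add_zero _) =
          r • z := by
        rw [ModuleCat.smulShortComplex_f_eq_smul_id, Ext.smul_eq_comp_mk₀]
        rfl
      rw [h1]
      exact smul_ext_eq_zero _ (hann r (List.mem_cons_self)) _ z
    exact (LinearEquiv.ofBijective δ ⟨hinj, hsurj⟩).length_eq

end Pool.Agent.MP_e3346b
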