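import Mathlib

/-!
# Lengths of Ext modules

`W` is a module over a local ring with `Ext^i(k, W) = 0` for `i ≠ d` and `Ext^d(k, W)` of length
one. Then for every module `X` of finite length `Ext^i(X, W) = 0` for `i ≠ d` and
`Ext^d(X, W)` has the length of `X`.
-/

universe u

open CategoryTheory CategoryTheory.Abelian

namespace Pool.Agent.MP_e3346b

variable {R : Type u} [CommRing R]

lemma ext_iso_injective {X Y : ModuleCat.{u} R} (e : X ≅ Y) (W : ModuleCat.{u} R) (i : ℕ) :
    Function.Injective (fun z : Ext Y W i => (Ext.mk₀ e.hom).comp z (zero_add i)) := by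
  intro x y hxy
  have := congrArg (fun z => (Ext.mk₀ e.inv).comp z (zero_add i)) hxy
  simpa using this

lemma subsingleton_ext_congr {X Y : ModuleCat.{u} R} (e : X ≅ Y) (W : ModuleCat.{u} R) (i : ℕ)
    (h : Subsingleton (Ext X W i)) : Subsingleton (Ext Y W i) :=
  ⟨fun _ _ => ext_iso_injective e W i (Subsingleton.elim _ _)⟩

lemma length_ext_congr {X Y : ModuleCat.{u} R} (e : X ≅ Y) (W : ModuleCat.{u} R) (i : ℕ) :
    Module.length R (Ext X W i) = Module.length R (Ext Y W i) := by
  refine le_antisymm ?_ ?_
  · exact Module.length_le_of_injective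
      ((Ext.mk₀ e.inv).precompOfLinear R W (zero_add i)) (ext_iso_injective e.symm W i)
  · exact Module.length_le_of_injective
      ((Ext.mk₀ e.hom).precompOfLinear R W (zero_add i)) (ext_iso_injective e W i)

/-- Dévissage step. -/
lemma ext_of_shortExact (S : ShortComplex (ModuleCat.{u} R)) (hS : S.ShortExact)
    (W : ModuleCat.{u} R) (d : ℕ) (hz1 : ∀ i : ℕ, i ≠ d → Subsingleton (Ext S.X₁ W i))
    (hz3 : ∀ i : ℕ, i ≠ d → Subsingleton (Ext S.X₃ W i)) :
    (∀ i : ℕ, i ≠ d → Subsingleton (Ext S.X₂ W i)) ∧
      Module.length R (Ext S.X₂ W d) =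
        Module.length R (Ext S.X₃ W d) + Module.length R (Ext S.X₁ W d) := by
  refine ⟨fun i hi => ?_, ?_⟩
  · have h1 := hz1 i hi
    have h3 := hz3 i hi
    have key : ∀ z : Ext S.X₂ W i, z = 0 := fun z => by
      obtain ⟨w, hw⟩ := Ext.contravariant_sequence_exact₂ hS W z (Subsingleton.elim _ _)
      rw [← hw, Subsingleton.elim w 0, Ext.comp_zero]
    exact ⟨fun x y => by rw [key x, key y]⟩
  · refine Module.length_eq_add_of_exact
      ((Ext.mk₀ S.g).precompOfLinear R W (zero_add d))
      ((Ext.mk₀ S.f).precompOfLinear R W (zero_add d)) ?_ ?_ ?_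
    · rw [← LinearMap.ker_eq_bot, Submodule.eq_bot_iff]
      intro z hz
      rw [LinearMap.mem_ker] at hz
      rcases Nat.eq_zero_or_pos d with hd | hd
      · subst hd
        have hepi : Epi S.g := hS.epi_g
        refine Ext.precomp_mk₀_injective_of_epi W S.g ?_
        rw [map_zero]
        exact hz
      · obtain ⟨w, hw⟩ := Ext.contravariant_sequence_exact₃ hS W z hz
            (n₀ := d - 1) (by omega)
        have := hz1 (d - 1) (by omega)
        rw [← hw, Subsingleton.elim w 0, Ext.comp_zero]
    · intro z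
      have := hz3 (1 + d) (by omega)
      exact Ext.contravariant_sequence_exact₁ hS W z (n₁ := 1 + d) rfl (Subsingleton.elim _ _)
    · intro z
      constructor
      · intro hz
        exact Ext.contravariant_sequence_exact₂ hS W z hz
      · rintro ⟨w, rfl⟩
        simp

/-- The short exact sequence of a submodule. -/
noncomputable def subSC {M : Type u} [AddCommGroup M] [Module R M] (N : Submodule R M) :
    ShortComplex (ModuleCat.{u} R) :=
  ShortComplex.mk (X₁ := ModuleCat.of R N) (X₂ := ModuleCat.of R M) (X₃ := ModuleCat.of R (M ⧸ N))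
    (ModuleCat.ofHom N.subtype) (ModuleCat.ofHom N.mkQ) (by
    ext x
    simp)

lemma subSC_shortExact {M : Type u} [AddCommGroup M] [Module R M] (N : Submodule R M) :
    (subSC N).ShortExact where
  exact := by
    rw [ShortComplex.moduleCat_exact_iff]
    intro x hx
    have hx' : (x : M) ∈ N := (Submodule.Quotient.mk_eq_zero N).mp hx
    exact ⟨⟨x, hx'⟩, rfl⟩
  mono_f := by
    have : Function.Injective (ModuleCat.ofHom N.subtype) := N.injective_subtype
    exact (ModuleCat.mono_iff_injective _).mpr this
  epi_g := by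
    have : Function.Surjective (ModuleCat.ofHom N.mkQ) := N.mkQ_surjective
    exact (ModuleCat.epi_iff_surjective _).mpr this

variable [IsLocalRing R]

/-- Dévissage. -/
theorem ext_of_isFiniteLength (W : ModuleCat.{u} R) (d : ℕ)
    (h0 : ∀ i : ℕ, i ≠ d →
      Subsingleton (Ext (ModuleCat.of R (IsLocalRing.ResidueField R)) W i))
    (h1 : Module.length R (Ext (ModuleCat.of R (IsLocalRing.ResidueField R)) W d) = 1)
    (X : Type u) [AddCommGroup X] [Module R X] (hX : IsFiniteLength R X) :
    (∀ i : ℕ, i ≠ d → Subsingleton (Ext (ModuleCat.of R X) W i)) ∧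
      Module.length R (Ext (ModuleCat.of R X) W d) = Module.length R X := by
  induction hX with
  | @of_subsingleton M _ _ hM =>
    have hz : ∀ i, Subsingleton (Ext (ModuleCat.of R M) W i) := by
      intro i
      have hid : (𝟙 (ModuleCat.of R M)) = 0 := by
        ext m
        exact Subsingleton.elim (α := M) _ _
      have key : ∀ z : Ext (ModuleCat.of R M) W i, z = 0 := fun z => by
        rw [← Ext.mk₀_id_comp z, hid, Ext.mk₀_zero, Ext.zero_comp]
      exact ⟨fun x y => by rw [key x, key y]⟩
    refine ⟨fun i _ => hz i, ?_⟩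
    have := hz d
    rw [Module.length_eq_zero, Module.length_eq_zero]
  | @of_simple_quotient M _ _ N hs hN ih =>
    obtain ⟨ihz, ihl⟩ := ih
    obtain ⟨I, hI, ⟨e⟩⟩ := isSimpleModule_iff_quot_maximal.mp hs
    obtain rfl : I = IsLocalRing.maximalIdeal R := IsLocalRing.eq_maximalIdeal hI
    let e' : ModuleCat.of R (IsLocalRing.ResidueField R) ≅ ModuleCat.of R (M ⧸ N) :=
      LinearEquiv.toModuleIso e.symm
    have hq0 : ∀ i : ℕ, i ≠ d → Subsingleton (Ext (ModuleCat.of R (M ⧸ N)) W i) := fun i hi =>
      subsingleton_ext_congr e' W i (h0 i hi)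
    have hq1 : Module.length R (Ext (ModuleCat.of R (M ⧸ N)) W d) = 1 := by
      rw [← length_ext_congr e' W d, h1]
    obtain ⟨r1, r2⟩ := ext_of_shortExact _ (subSC_shortExact (R := R) N) W d ihz hq0
    refine ⟨r1, ?_⟩
    have hl := Module.length_eq_add_of_exact N.subtype N.mkQ N.injective_subtype
      N.mkQ_surjective (LinearMap.exact_subtype_mkQ N)
    have h1' : Module.length R (M ⧸ N) = 1 := Module.length_eq_one (R := R) (M := M ⧸ N)
    refine r2.trans ?_
    change Module.length R (Ext (ModuleCat.of R (M ⧸ N)) W d) +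
      Module.length R (Ext (ModuleCat.of R N) W d) = _
    rw [hq1, ihl, hl, h1', add_comm]

end Pool.Agent.MP_e3346b
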