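import Mathlib

/-!
# A common regular sequence for two modules
-/

universe u

open CategoryTheory CategoryTheory.Abelian RingTheory.Sequence

namespace Pool.Agent.MP_e3346b

variable {R : Type u} [CommRing R]

lemma isWeaklyRegular_of_retract {M P : Type*} [AddCommGroup M] [Module R M] [AddCommGroup P]
    [Module R P] (j : M →ₗ[R] P) (q : P →ₗ[R] M) (h : ∀ x, q (j x) = x) {rs : List R}
    (hP : IsWeaklyRegular P rs) : IsWeaklyRegular M rs := by
  refine ⟨fun i hi => ?_⟩
  have hreg := hP.regular_mod_prev i hi
  set I := Ideal.ofList (rs.take i) with hI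
  let J : (M ⧸ (I • ⊤ : Submodule R M)) →ₗ[R] (P ⧸ (I • ⊤ : Submodule R P)) :=
    Submodule.mapQ _ _ j (Submodule.smul_top_le_comap_smul_top I j)
  let Q : (P ⧸ (I • ⊤ : Submodule R P)) →ₗ[R] (M ⧸ (I • ⊤ : Submodule R M)) :=
    Submodule.mapQ _ _ q (Submodule.smul_top_le_comap_smul_top I q)
  have hQJ : ∀ x, Q (J x) = x := by
    intro x
    obtain ⟨y, rfl⟩ := Submodule.mkQ_surjective _ x
    simp [Q, J, h]
  intro x y hxy
  have hxy' : rs[i] • x = rs[i] • y := hxy
  have h1 : rs[i] • J x = rs[i] • J y := by rw [← map_smul, ← map_smul, hxy']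
  have h2 : J x = J y := hreg h1
  rw [← hQJ x, ← hQJ y, h2]

/-- The split sequence of a product. -/
noncomputable def prodSC (M N : Type u) [AddCommGroup M] [Module R M] [AddCommGroup N]
    [Module R N] : ShortComplex (ModuleCat.{u} R) :=
  ShortComplex.mk (X₁ := ModuleCat.of R M) (X₂ := ModuleCat.of R (M × N)) (X₃ := ModuleCat.of R N)
    (ModuleCat.ofHom (LinearMap.inl R M N)) (ModuleCat.ofHom (LinearMap.snd R M N)) (by
    ext x
    simp)

lemma prodSC_shortExact (M N : Type u) [AddCommGroup M] [Module R M] [AddCommGroup N]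
    [Module R N] : (prodSC (R := R) M N).ShortExact where
  exact := by
    rw [ShortComplex.moduleCat_exact_iff]
    intro x hx
    have hx' : (x : M × N).2 = 0 := hx
    exact ⟨(x : M × N).1, Prod.ext rfl hx'.symm⟩
  mono_f := by
    have : Function.Injective (ModuleCat.ofHom (LinearMap.inl R M N)) := LinearMap.inl_injective
    exact (ModuleCat.mono_iff_injective _).mpr this
  epi_g := by
    have : Function.Surjective (ModuleCat.ofHom (LinearMap.snd R M N)) := LinearMap.snd_surjective
    exact (ModuleCat.epi_iff_surjective _).mpr this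

lemma subsingleton_ext_prod (K : ModuleCat.{u} R) (M N : Type u) [AddCommGroup M] [Module R M]
    [AddCommGroup N] [Module R N] (i : ℕ) (hM : Subsingleton (Ext K (ModuleCat.of R M) i))
    (hN : Subsingleton (Ext K (ModuleCat.of R N) i)) :
    Subsingleton (Ext K (ModuleCat.of R (M × N)) i) := by
  have key : ∀ z : Ext K (ModuleCat.of R (M × N)) i, z = 0 := fun z => by
    obtain ⟨w, hw⟩ := Ext.covariant_sequence_exact₂ K (prodSC_shortExact (R := R) M N) z
      (Subsingleton.elim (α := Ext K (ModuleCat.of R N) i) _ _)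
    have hw0 : w = 0 := Subsingleton.elim (α := Ext K (ModuleCat.of R M) i) _ _
    rw [hw0, Ext.zero_comp] at hw
    exact hw.symm
  exact ⟨fun x y => by rw [key x, key y]⟩

theorem exists_common_regular_sequence [IsNoetherianRing R] [IsLocalRing R] (M N : Type u)
    [AddCommGroup M] [Module R M] [Module.Finite R M] [Nontrivial M]
    [AddCommGroup N] [Module R N] [Module.Finite R N] [Nontrivial N] (d : ℕ)
    (hM : ∀ i < d, Subsingleton
      (Ext (ModuleCat.of R (IsLocalRing.ResidueField R)) (ModuleCat.of R M) i))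
    (hN : ∀ i < d, Subsingleton
      (Ext (ModuleCat.of R (IsLocalRing.ResidueField R)) (ModuleCat.of R N) i)) :
    ∃ rs : List R, rs.length = d ∧ (∀ r ∈ rs, r ∈ IsLocalRing.maximalIdeal R) ∧
      IsRegular M rs ∧ IsRegular N rs := by
  have hfinres : Module.Finite R (ModuleCat.of R (IsLocalRing.ResidueField R)) :=
    inferInstanceAs (Module.Finite R (R ⧸ IsLocalRing.maximalIdeal R))
  have hfinMN : Module.Finite R (ModuleCat.of R (M × N)) :=
    inferInstanceAs (Module.Finite R (M × N))
  obtain ⟨rs, h1, h2, h3⟩ := ModuleCat.exists_isRegular_of_exists_subsingleton_ext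
    (IsLocalRing.maximalIdeal R) d (ModuleCat.of R (M × N)) (by
      refine lt_of_le_of_ne le_top ?_
      intro h
      have := Submodule.top_ne_ideal_smul_of_le_jacobson_annihilator (R := R) (M := M × N)
        (I := IsLocalRing.maximalIdeal R) (IsLocalRing.maximalIdeal_le_jacobson _)
      exact this h.symm)
    (ModuleCat.of R (IsLocalRing.ResidueField R)) (by
      have : Module.support R (R ⧸ IsLocalRing.maximalIdeal R) =
          PrimeSpectrum.zeroLocus (IsLocalRing.maximalIdeal R : Set R) := by
        rw [Module.support_eq_zeroLocus, Ideal.annihilator_quotient]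
      exact this)
    (fun i hi => subsingleton_ext_prod _ M N i (hM i hi) (hN i hi))
  have hw : IsWeaklyRegular (M × N) rs := h3.toIsWeaklyRegular
  refine ⟨rs, h1, h2, ?_, ?_⟩
  · exact (IsLocalRing.isRegular_iff_isWeaklyRegular_of_subset_maximalIdeal h2).mpr
      (isWeaklyRegular_of_retract (LinearMap.inl R M N) (LinearMap.fst R M N) (fun x => rfl) hw)
  · exact (IsLocalRing.isRegular_iff_isWeaklyRegular_of_subset_maximalIdeal h2).mpr
      (isWeaklyRegular_of_retract (LinearMap.inr R M N) (LinearMap.snd R M N) (fun x => rfl) hw)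

end Pool.Agent.MP_e3346b
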