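import Pool.Agent.Lib.MP_e3346b_ag.ExtHom
import Pool.Agent.Lib.MP_e3346b_ag.RegSeq
import Pool.Agent.Lib.MP_e3346b_ag.Duality

/-!
# Reduction to Artinian rings
-/

universe u

open CategoryTheory CategoryTheory.Abelian RingTheory.Sequence

namespace Pool.Agent.MP_e3346b

section Base

variable {R : Type u} [CommRing R] (I : Ideal R) {ω : Type u} [AddCommGroup ω] [Module R ω]
  {n : ℕ}

/-- The class of an element of `ω` in `ω / I ω`. -/
abbrev mkE (x : ω) : ω ⧸ (I • ⊤ : Submodule R ω) := Submodule.Quotient.mk x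

/-- Base change of `f : R^n → ω` to `R / I`. -/
noncomputable def baseF (f : (Fin n → R) →ₗ[R] ω) :
    (Fin n → R ⧸ I) →ₗ[R ⧸ I] (ω ⧸ (I • ⊤ : Submodule R ω)) :=
  Fintype.linearCombination (R ⧸ I) (fun i => mkE I (f (Pi.single i 1)))

/-- Base change of `g : R^n → R^n` to `R / I`. -/
noncomputable def baseG (g : (Fin n → R) →ₗ[R] (Fin n → R)) :
    (Fin n → R ⧸ I) →ₗ[R ⧸ I] (Fin n → R ⧸ I) :=
  Fintype.linearCombination (R ⧸ I) (fun j i => Ideal.Quotient.mk I (g (Pi.single j 1) i))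

lemma eq_sum_single (v : Fin n → R) : v = ∑ i, v i • (Pi.single i 1 : Fin n → R) := by
  ext j
  simp [Finset.sum_apply, Pi.single_apply]

lemma baseF_mk (f : (Fin n → R) →ₗ[R] ω) (v : Fin n → R) :
    baseF I f (fun i => Ideal.Quotient.mk I (v i)) = mkE I (f v) := by
  conv_rhs => rw [eq_sum_single v]
  rw [baseF, Fintype.linearCombination_apply, map_sum]
  have h : ∀ x : Fin n → ω, mkE I (∑ i, x i) = ∑ i, mkE I (x i) := fun x => by
    exact map_sum (Submodule.mkQ (I • ⊤ : Submodule R ω)) x Finset.univ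
  rw [h]
  refine Finset.sum_congr rfl fun i _ => ?_
  rw [map_smul]
  rfl

lemma baseG_mk (g : (Fin n → R) →ₗ[R] (Fin n → R)) (v : Fin n → R) :
    baseG I g (fun i => Ideal.Quotient.mk I (v i)) = fun i => Ideal.Quotient.mk I (g v i) := by
  conv_rhs => rw [eq_sum_single v]
  ext i
  rw [baseG, Fintype.linearCombination_apply, map_sum, Finset.sum_apply, Finset.sum_apply, map_sum]
  refine Finset.sum_congr rfl fun j _ => ?_
  rw [map_smul, Pi.smul_apply, Pi.smul_apply, smul_eq_mul, smul_eq_mul, map_mul]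

lemma exists_lift (w : Fin n → R ⧸ I) : ∃ v : Fin n → R, w = fun i => Ideal.Quotient.mk I (v i) :=
  ⟨fun i => (Ideal.Quotient.mk_surjective (w i)).choose,
    funext fun i => ((Ideal.Quotient.mk_surjective (w i)).choose_spec).symm⟩

lemma baseF_surjective {f : (Fin n → R) →ₗ[R] ω} (hf : Function.Surjective f) :
    Function.Surjective (baseF I f) := by
  intro x
  obtain ⟨y, rfl⟩ := Submodule.mkQ_surjective _ x
  obtain ⟨v, rfl⟩ := hf y
  exact ⟨_, baseF_mk I f v⟩

lemma exists_of_baseF_eq_zero {f : (Fin n → R) →ₗ[R] ω} (hf : Function.Surjective f)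
    {g : (Fin n → R) →ₗ[R] (Fin n → R)} (hg : LinearMap.range g = LinearMap.ker f)
    {v : Fin n → R} (hv : mkE I (f v) = 0) :
    ∃ u w : Fin n → R, (∀ i, w i ∈ I) ∧ v = g u + w := by
  rw [Submodule.Quotient.mk_eq_zero] at hv
  have htop : (I • ⊤ : Submodule R ω) = Submodule.map f (I • ⊤ : Submodule R (Fin n → R)) := by
    rw [Submodule.map_smul'', Submodule.map_top, LinearMap.range_eq_top.mpr hf]
  rw [htop] at hv
  obtain ⟨w, hw, hwv⟩ := hv
  have hwI : ∀ i, w i ∈ I := by
    intro i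
    have : (I • ⊤ : Submodule R (Fin n → R)) ≤ Submodule.comap (LinearMap.proj i) I := by
      refine Submodule.smul_le.mpr fun r hr x _ => ?_
      exact I.mul_mem_right _ hr
    exact this hw
  have hker : v - w ∈ LinearMap.ker f := by
    rw [LinearMap.mem_ker, map_sub, hwv, sub_self]
  rw [← hg] at hker
  obtain ⟨u, hu⟩ := hker
  exact ⟨u, w, hwI, by rw [hu]; abel⟩

lemma baseG_range {f : (Fin n → R) →ₗ[R] ω} (hf : Function.Surjective f)
    {g : (Fin n → R) →ₗ[R] (Fin n → R)} (hg : LinearMap.range g = LinearMap.ker f) :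
    LinearMap.range (baseG I g) = LinearMap.ker (baseF I f) := by
  apply le_antisymm
  · rintro _ ⟨w, rfl⟩
    obtain ⟨v, rfl⟩ := exists_lift I w
    rw [LinearMap.mem_ker, baseG_mk, baseF_mk]
    have : g v ∈ LinearMap.ker f := by rw [← hg]; exact ⟨v, rfl⟩
    rw [LinearMap.mem_ker.mp this]
    rfl
  · intro w hw
    obtain ⟨v, rfl⟩ := exists_lift I w
    rw [LinearMap.mem_ker, baseF_mk] at hw
    obtain ⟨u, w, hwI, rfl⟩ := exists_of_baseF_eq_zero I hf hg hw
    refine ⟨fun i => Ideal.Quotient.mk I (u i), ?_⟩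
    rw [baseG_mk]
    ext i
    rw [Pi.add_apply, map_add, Ideal.Quotient.eq_zero_iff_mem.mpr (hwI i), add_zero]

/-- Minimality of the number of generators forces the relations into the maximal ideal. -/
lemma mem_maximalIdeal_of_minimal [IsLocalRing R] (f : (Fin n → R) →ₗ[R] ω)
    (hf : Function.Surjective f)
    (hmin : ∀ m : ℕ, ∀ h : (Fin m → R) →ₗ[R] ω, Function.Surjective h → n ≤ m)
    (v : Fin n → R) (hv : f v = 0) (i : Fin n) : v i ∈ IsLocalRing.maximalIdeal R := by
  by_contra hvi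
  have hu : IsUnit (v i) := by
    rwa [IsLocalRing.mem_maximalIdeal, mem_nonunits_iff, not_not] at hvi
  obtain ⟨m, rfl⟩ : ∃ m, n = m + 1 := ⟨n - 1, by have := i.2; omega⟩
  obtain ⟨s, hs⟩ := hu.exists_left_inv
  let h : (Fin m → R) →ₗ[R] ω :=
    Fintype.linearCombination R (fun j => f (Pi.single (i.succAbove j) 1))
  have hsurj : Function.Surjective h := by
    intro x
    obtain ⟨w, rfl⟩ := hf x
    refine ⟨fun j => (w - (w i * s) • v) (i.succAbove j), ?_⟩
    have h1 : f w = f (w - (w i * s) • v) := by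
      rw [map_sub, map_smul, hv, smul_zero, sub_zero]
    have h2 : (w - (w i * s) • v) i = 0 := by
      simp only [Pi.sub_apply, Pi.smul_apply, smul_eq_mul, mul_assoc, hs, mul_one, sub_self]
    rw [h1]
    set z := w - (w i * s) • v with hz
    conv_rhs => rw [eq_sum_single z]
    rw [Fin.sum_univ_succAbove _ i, h2, zero_smul, zero_add, map_sum]
    simp only [h, Fintype.linearCombination_apply, map_smul]
  have := hmin m h hsurj
  omega

end Base

/-- **Reduction to the Artinian case.** -/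
theorem exists_artinian_reduction (R : Type u) [CommRing R] [IsLocalRing R] [IsNoetherianRing R]
    (ω : Type u) [AddCommGroup ω] [Module R ω] [Module.Finite R ω]
    (hR : ∀ i : ℕ, (i : WithBot ℕ∞) < ringKrullDim R →
      Subsingleton (Ext (ModuleCat.of R (IsLocalRing.ResidueField R)) (ModuleCat.of R R) i))
    (h0 : ∀ i : ℕ, (i : WithBot ℕ∞) ≠ ringKrullDim R →
      Subsingleton (Ext (ModuleCat.of R (IsLocalRing.ResidueField R)) (ModuleCat.of R ω) i))
    (h1 : ∀ i : ℕ, (i : WithBot ℕ∞) = ringKrullDim R →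
      Module.length R
        (Ext (ModuleCat.of R (IsLocalRing.ResidueField R)) (ModuleCat.of R ω) i) = 1)
    (n : ℕ) (f : (Fin n → R) →ₗ[R] ω) (hf : Function.Surjective f)
    (hmin : ∀ m : ℕ, ∀ h : (Fin m → R) →ₗ[R] ω, Function.Surjective h → n ≤ m)
    (g : (Fin n → R) →ₗ[R] (Fin n → R)) (hg : LinearMap.range g = LinearMap.ker f) :
    ∃ (S : Type u) (_ : CommRing S) (_ : IsLocalRing S) (_ : IsArtinianRing S)
      (E : Type u) (_ : AddCommGroup E) (_ : Module S E) (_ : Nontrivial E)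
      (F : (Fin n → S) →ₗ[S] E) (G : (Fin n → S) →ₗ[S] (Fin n → S)),
      Function.Surjective F ∧ LinearMap.range G = LinearMap.ker F ∧
      (∀ v ∈ LinearMap.ker F, ∀ i, v i ∈ IsLocalRing.maximalIdeal S) ∧
      (∀ r : S, (∀ e : E, r • e = 0) → r = 0) ∧
      (∀ φ : E →ₗ[S] E, ∃ r : S, ∀ e, φ e = r • e) := by
  obtain ⟨d, hd⟩ : ∃ d : ℕ, ringKrullDim R = (d : WithBot ℕ∞) := by
    have hb : ringKrullDim R ≠ ⊥ := ringKrullDim_ne_bot
    have ht : ringKrullDim R ≠ ⊤ := ringKrullDim_ne_top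
    obtain ⟨x, hx⟩ := WithBot.ne_bot_iff_exists.mp hb
    rw [← hx] at ht
    have hx' : x ≠ ⊤ := fun h => ht (by rw [h]; rfl)
    obtain ⟨m, hm⟩ := ENat.ne_top_iff_exists.mp hx'
    exact ⟨m, by rw [← hx, ← hm]; rfl⟩
  simp only [hd, Nat.cast_lt, ne_eq, Nat.cast_inj] at hR h0 h1
  have h1' := h1 d rfl
  have hω : Nontrivial ω := by
    by_contra hns
    rw [not_nontrivial_iff_subsingleton] at hns
    have hid : (𝟙 (ModuleCat.of R ω)) = 0 := by
      ext m
      exact Subsingleton.elim (α := ω) _ _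
    have key : ∀ z : Ext (ModuleCat.of R (IsLocalRing.ResidueField R)) (ModuleCat.of R ω) d,
        z = 0 := fun z => by
      rw [← Ext.comp_mk₀_id z, hid, Ext.mk₀_zero, Ext.comp_zero]
    have : Subsingleton (Ext (ModuleCat.of R (IsLocalRing.ResidueField R))
        (ModuleCat.of R ω) d) := ⟨fun x y => by rw [key x, key y]⟩
    rw [Module.length_eq_zero] at h1'
    exact zero_ne_one h1'
  obtain ⟨rs, hlen, hmem, hregR, hregω⟩ := exists_common_regular_sequence (R := R) R ω d
    (fun i hi => hR i hi) (fun i hi => h0 i (by omega))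
  obtain ⟨I, hI⟩ : ∃ I : Ideal R, I = Ideal.ofList rs := ⟨_, rfl⟩
  have hIm : I ≤ IsLocalRing.maximalIdeal R := by
    rw [hI, Ideal.ofList, Ideal.span_le]
    exact fun r hr => hmem r hr
  have hdim : ringKrullDim (R ⧸ I) = 0 := by
    have := ringKrullDim_add_length_eq_ringKrullDim_of_isRegular rs hregR
    rw [← hI, hlen, hd] at this
    have hb : ringKrullDim (R ⧸ I) ≠ ⊥ := by
      intro h
      rw [h, WithBot.bot_add] at this
      exact absurd this.symm (WithBot.natCast_ne_bot (α := ℕ∞) d)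
    obtain ⟨x, hx⟩ := WithBot.ne_bot_iff_exists.mp hb
    rw [← hx] at this ⊢
    have h3 : x + (d : ℕ∞) = (0 : ℕ∞) + (d : ℕ∞) := by
      rw [zero_add]
      exact_mod_cast this
    have h4 : x = 0 := ENat.add_left_injective_of_ne_top (ENat.natCast_ne_top d) h3
    rw [h4]
    rfl
  have hnt : Nontrivial (R ⧸ I) := Ideal.Quotient.nontrivial_iff.mpr (by
    intro h
    exact (IsLocalRing.maximalIdeal.isMaximal R).ne_top (top_le_iff.mp (h ▸ hIm)))
  have hloc : IsLocalRing (R ⧸ I) :=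
    IsLocalRing.of_surjective' (Ideal.Quotient.mk I) Ideal.Quotient.mk_surjective
  have hart : IsArtinianRing (R ⧸ I) := by
    rw [isArtinianRing_iff_krullDimLE_zero]
    rw [Ring.KrullDimLE, Order.krullDimLE_iff]
    exact hdim.le
  let e : (R ⧸ I) →ₛₗ[Ideal.Quotient.mk I] (R ⧸ I) := ⟨.id _, fun _ _ => rfl⟩
  have hA : IsArtinian R (R ⧸ I) :=
    (e.isArtinian_iff_of_bijective Function.bijective_id).mpr hart
  have hN : IsNoetherian R (R ⧸ I) :=
    (e.isNoetherian_iff_of_bijective Function.bijective_id).mpr inferInstance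
  have hE : ∀ r ∈ I, ∀ x : ω ⧸ (I • ⊤ : Submodule R ω), r • x = 0 := by
    intro r hr x
    obtain ⟨y, rfl⟩ := Submodule.mkQ_surjective _ x
    rw [Submodule.mkQ_apply, ← Submodule.Quotient.mk_smul, Submodule.Quotient.mk_eq_zero]
    exact Submodule.smul_mem_smul hr trivial
  have hlenX : ∀ (X : Type u) [AddCommGroup X] [Module R X], Module.Finite R X →
      (∀ r ∈ I, ∀ x : X, r • x = 0) →
      Module.length R (X →ₗ[R] (ω ⧸ (I • ⊤ : Submodule R ω))) = Module.length R X := by
    intro X _ _ hfX hX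
    obtain ⟨hXA, hXN⟩ := finite_length_of_killed I hA hN X hX
    have hXfl : IsFiniteLength R X := isFiniteLength_iff_isNoetherian_isArtinian.mpr ⟨hXN, hXA⟩
    have e1 := (ext_of_isFiniteLength (ModuleCat.of R ω) d (fun i hi => h0 i hi) h1' X hXfl).2
    have e2 := length_ext_eq_length_hom X rs ω hregω (fun r hr => by
      rw [Module.mem_annihilator]
      exact hX r (by rw [hI]; exact Ideal.subset_span hr))
    rw [hlen, e1] at e2
    rw [e2, hI]
  refine ⟨R ⧸ I, inferInstance, hloc, hart, ω ⧸ (I • ⊤ : Submodule R ω), inferInstance,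
    inferInstance, ?_, baseF I f, baseG I g, baseF_surjective I hf, baseG_range I hf hg,
    ?_, ?_, ?_⟩
  · rw [hI]
    exact hregω.quot_ofList_smul_nontrivial ⊤
  · intro v hv i
    obtain ⟨v, rfl⟩ := exists_lift I v
    rw [LinearMap.mem_ker, baseF_mk] at hv
    obtain ⟨u, w, hwI, rfl⟩ := exists_of_baseF_eq_zero I hf hg hv
    have h5 : g u i ∈ IsLocalRing.maximalIdeal R :=
      mem_maximalIdeal_of_minimal f hf hmin (g u) (by
        have : g u ∈ LinearMap.ker f := by rw [← hg]; exact ⟨u, rfl⟩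
        exact this) i
    have h6 : (g u + w) i ∈ IsLocalRing.maximalIdeal R :=
      add_mem h5 (hIm (hwI i))
    by_contra hcon
    rw [IsLocalRing.mem_maximalIdeal, mem_nonunits_iff, not_not] at hcon
    have : IsLocalHom (Ideal.Quotient.mk I) :=
      IsLocalHom.of_surjective (Ideal.Quotient.mk I) Ideal.Quotient.mk_surjective
    have h7 := isUnit_of_map_unit (Ideal.Quotient.mk I) _ hcon
    exact (mem_nonunits_iff.mp ((IsLocalRing.mem_maximalIdeal _).mp h6)) h7
  · intro s hs
    obtain ⟨r, rfl⟩ := Ideal.Quotient.mk_surjective s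
    rw [Ideal.Quotient.eq_zero_iff_mem]
    exact mem_of_kills I hA hN (ω ⧸ (I • ⊤ : Submodule R ω)) hE hlenX r fun x => hs x
  · intro φ
    obtain ⟨r, hr⟩ := exists_homothety I hA hN (ω ⧸ (I • ⊤ : Submodule R ω)) hE hlenX
      (φ.restrictScalars R)
    exact ⟨Ideal.Quotient.mk I r, fun x => hr x⟩

end Pool.Agent.MP_e3346b
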